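import Pool.Agent.P.MP_f8f66f_co.Scale
import Pool.Agent.Lib.Incidence.ST

/-!
The geometric lemmas: points outside a subgroup are none or many, and some boundedly generated
subgroup catches a positive proportion of the points.
-/

namespace Pool.Agent.P.MP_f8f66f_co

open Finset Pool.Agent.Lib.Additive Pool.Agent.Lib.Incidence

/-- The values of `h` sum to zero along each line with at least two points. -/
def ZeroSum {G : Type} [AddCommGroup G] (R : Finset (ℝ × ℝ)) (h : ℝ × ℝ → G) : Prop :=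
  ∀ l, 2 ≤ (pts R l).card → ∑ x ∈ pts R l, h x = 0

/-- No non-vertical line contains all points. -/
def NonCol (R : Finset (ℝ × ℝ)) : Prop := ∀ l, ∃ p ∈ R, ¬ On l p

lemma blocked {S Q : Finset (ℝ × ℝ)} {l q : ℝ × ℝ} (hS : ∀ p ∈ S, On l p ∧ p.1 ≠ q.1)
    (hq : ¬ On l q) (hB : ∀ p ∈ S, ∃ q' ∈ Q, q' ≠ q ∧ On (thru p q) q') : S.card ≤ Q.card := by
  refine card_le_card_of_forall_subsingleton (fun p q' => q' ≠ q ∧ On (thru p q) q') hB ?_
  rintro q' - p ⟨hp, h1, h2⟩ p' ⟨hp', -, h3⟩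
  by_contra hne
  have a1 := on_thru_right (hS p hp).2
  have a2 := on_thru_right (hS p' hp').2
  have e1 : thru p q = thru p' q := line_eq_of_two h1 h2 a1 h3 a2
  have e2 : l = thru p q := line_eq_of_two hne (hS p hp).1 (hS p' hp').1 (on_thru_left _ _)
    (e1 ▸ on_thru_left _ _)
  exact hq (e2 ▸ a1)

theorem lemmaA {P R Z : Finset (ℝ × ℝ)} (hP : XInj P) (hR : R ⊆ P) (hZ : Z ⊆ P)
    (hd : ∀ p ∈ R, p ∉ Z) (hn : NonCol R)
    (h : ∀ l, ∀ p ∈ R, ∀ z ∈ Z, On l p → On l z → 2 ≤ (pts R l).card) :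
    (Z.card : ℝ) ≤ 27792 * R.card := by
  classical
  have hne : ∀ p ∈ R, ∀ z ∈ Z, p ≠ z := fun p hp z hz e => hd p hp (e ▸ hz)
  have hM : ∀ l, (pts Z l).card ≤ R.card := by
    intro l
    obtain ⟨p, hp, hpl⟩ := hn l
    refine blocked (l := l) (q := p) (fun z hz => ⟨(mem_pts.1 hz).2, fun e =>
      hne p hp z (mem_pts.1 hz).1 (hP _ (hR hp) _ (hZ (mem_pts.1 hz).1) e.symm)⟩) hpl ?_
    intro z hz
    have hz' := (mem_pts.1 hz).1
    have a1 : On (thru z p) p := hP.on_thru (hZ hz') (hR hp) (hne p hp z hz').symm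
    have := h _ p hp z hz' a1 (on_thru_left _ _)
    obtain ⟨q', h1, h2⟩ := exists_mem_ne (s := pts R (thru z p)) this p
    exact ⟨q', (mem_pts.1 h1).1, h2, (mem_pts.1 h1).2⟩
  set m : ℝ := (R.card : ℝ) with hm
  set N : ℝ := (Z.card : ℝ) with hN
  have m0 : 0 < m := by
    obtain ⟨p, hp, -⟩ := hn (0, 0)
    rw [hm]
    exact_mod_cast card_pos.2 ⟨p, hp⟩
  have N0 : 0 ≤ N := by positivity
  rcases N0.eq_or_lt with N1 | N1
  · rw [← N1]; positivity
  set L := (R ×ˢ Z).image fun e => thru e.1 e.2 with hL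
  have r2 : ∀ l ∈ L, (2 : ℝ) ≤ (pts R l).card := by
    intro l hl
    obtain ⟨⟨p, z⟩, he, rfl⟩ := mem_image.1 hl
    obtain ⟨hp, hz⟩ := mem_product.1 he
    exact_mod_cast h _ p hp z hz (on_thru_left _ _) (hP.on_thru (hR hp) (hZ hz) (hne p hp z hz))
  have s1 : m * N ≤ ∑ l ∈ L, ((pts R l).card : ℝ) * (pts Z l).card := by
    have := card_eq_sum_card_fiberwise (s := R ×ˢ Z) (t := L) (f := fun e => thru e.1 e.2)
      (fun e he => mem_image_of_mem _ he)
    rw [card_product] at this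
    rw [hm, hN, ← Nat.cast_mul, this]
    push_cast
    refine sum_le_sum fun l _ => ?_
    rw [← Nat.cast_mul, ← card_product]
    refine Nat.cast_le.2 (card_le_card fun e he => ?_)
    obtain ⟨he', rfl⟩ := mem_filter.1 he
    obtain ⟨hp, hz⟩ := mem_product.1 he'
    exact mem_product.2 ⟨mem_pts.2 ⟨hp, on_thru_left _ _⟩,
      mem_pts.2 ⟨hz, hP.on_thru (hR hp) (hZ hz) (hne _ hp _ hz)⟩⟩
  have s2 := sum_pairs_le R L
  have s3 := middle_range Z (L.filter fun l => 13824 ≤ (pts Z l).card) (K := 13824) (by norm_num)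
    (M := R.card) fun l hl => ⟨(mem_filter.1 hl).2, hM l⟩
  rw [sum_filter] at s3
  set th : ℝ := N / (4 * m) with hth
  have th0 : 0 < th := by positivity
  have s4 : ∑ l ∈ L, ((pts R l).card : ℝ) * (pts Z l).card ≤
      ∑ l ∈ L, ((13824 + th) * (((pts R l).card : ℝ) ^ 2 - (pts R l).card) +
        (1 / (2 * th)) * if 13824 ≤ (pts Z l).card then ((pts Z l).card : ℝ) ^ 2 else 0) := by
    refine sum_le_sum fun l hl => ?_
    have a1 := r2 l hl
    set r : ℝ := ((pts R l).card : ℝ)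
    have a2 : r ≤ r ^ 2 - r := by nlinarith
    have a3 : r ^ 2 ≤ 2 * (r ^ 2 - r) := by nlinarith
    split_ifs with c
    · set z : ℝ := ((pts Z l).card : ℝ)
      have a4 : r * z ≤ th * r ^ 2 / 2 + 1 / (2 * th) * z ^ 2 := by
        have : th * r ^ 2 / 2 + 1 / (2 * th) * z ^ 2 - r * z = (th * r - z) ^ 2 / (2 * th) := by
          field_simp
          ring
        have a5 : 0 ≤ (th * r - z) ^ 2 / (2 * th) := by positivity
        linarith
      nlinarith
    · have a4 : ((pts Z l).card : ℝ) ≤ 13824 := by exact_mod_cast (not_le.1 c).le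
      have a5 : (0 : ℝ) ≤ (pts Z l).card := by positivity
      nlinarith
  rw [sum_add_distrib, ← mul_sum, ← mul_sum] at s4
  have s5 : m * N ≤ (13824 + th) * m ^ 2 + 1 / (2 * th) * (1728 * N ^ 2 / 13824 + 36 * N * m) := by
    refine s1.trans (s4.trans ?_)
    push_cast at s3
    gcongr
  have s6 : (13824 + th) * m ^ 2 + 1 / (2 * th) * (1728 * N ^ 2 / 13824 + 36 * N * m) =
      m * (13896 * m + N / 2) := by
    rw [hth]
    field_simp
    ring
  rw [s6] at s5
  have := le_of_mul_le_mul_left s5 m0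
  linarith

lemma nonCol_of {P R Z : Finset (ℝ × ℝ)} (hP : XInj P) (hR : R ⊆ P)
    (hcov : ∀ p ∈ P, p ∉ R → p ∈ Z) (hn : NonCol P) (hne : R.Nonempty)
    (h : ∀ l, ∀ p ∈ R, ∀ z ∈ Z, On l p → On l z → 2 ≤ (pts R l).card) : NonCol R := by
  intro l
  by_contra hc
  push Not at hc
  obtain ⟨z, hz, hzl⟩ := hn l
  have hzR : z ∉ R := fun hh => hzl (hc z hh)
  obtain ⟨p, hp⟩ := hne
  have a1 : On (thru p z) z := hP.on_thru (hR hp) hz fun e => hzR (e ▸ hp)
  have := h _ p hp z (hcov z hz hzR) (on_thru_left _ _) a1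
  obtain ⟨a, ha, b, hb, hab⟩ := one_lt_card.1 this
  have e := line_eq_of_two hab (mem_pts.1 ha).2 (mem_pts.1 hb).2 (hc a (mem_pts.1 ha).1)
    (hc b (mem_pts.1 hb).1)
  exact hzl (e ▸ a1)

variable {G : Type} [AddCommGroup G]

lemma eq_of_add_eq_zero (h2 : ∀ x : G, x + x = 0) {x y : G} (h : x + y = 0) : x = y := by
  rw [← h2 y] at h
  exact add_right_cancel h

/-- Either one class is large or the set spans quadratically many lines. -/
lemma dichotomy (h2 : ∀ x : G, x + x = 0) {R : Finset (ℝ × ℝ)} (hR : XInj R) (hn : NonCol R)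
    {h : ℝ × ℝ → G} (hz : ZeroSum R h) (hm : 288 ≤ R.card) :
    (∃ q ∈ R, ∃ Q ⊆ R, (R.card : ℝ) ≤ 288 * Q.card ∧ ∀ p ∈ Q, h p = h q) ∨
      (R.card : ℝ) ^ 2 ≤ 4 * 6912 ^ 2 * (lines R).card := by
  classical
  by_cases c : ∀ l, 144 * (pts R l).card ≤ R.card
  · exact Or.inr (beck_sparse hR (by omega) c)
  push Not at c
  obtain ⟨l, hl⟩ := c
  set O := R.filter fun p => ¬ On l p with hO
  have hOn : ∀ q ∈ O, ∀ p ∈ pts R l, p ≠ q := fun q hq p hp e =>
    (mem_filter.1 hq).2 (e ▸ (mem_pts.1 hp).2)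
  -- unblocked points
  have free : ∀ Q ⊆ O, ∀ q ∈ Q, (pts R l).card ≤ Q.card +
      ((pts R l).filter fun p => ¬ ∃ q' ∈ Q, q' ≠ q ∧ On (thru p q) q').card := by
    intro Q hQ q hq
    have a1 := card_filter_add_card_filter_not (s := pts R l)
      fun p => ∃ q' ∈ Q, q' ≠ q ∧ On (thru p q) q'
    have a2 : ((pts R l).filter fun p => ∃ q' ∈ Q, q' ≠ q ∧ On (thru p q) q').card ≤ Q.card := by
      refine blocked (l := l) (q := q) (fun p hp => ?_) (mem_filter.1 (hQ hq)).2
        fun p hp => (mem_filter.1 hp).2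
      have hp' := (mem_filter.1 hp).1
      exact ⟨(mem_pts.1 hp').2, fun e => hOn q (hQ hq) p hp'
        (hR _ (mem_pts.1 hp').1 _ (mem_filter.1 (hQ hq)).1 e)⟩
    omega
  by_cases c2 : 2 * O.card ≤ (pts R l).card
  · left
    obtain ⟨q, hq, hql⟩ := hn l
    have hqO : q ∈ O := mem_filter.2 ⟨hq, hql⟩
    have a1 := free O subset_rfl q hqO
    refine ⟨q, hq, (pts R l).filter fun p => ¬ ∃ q' ∈ O, q' ≠ q ∧ On (thru p q) q',
      fun p hp => (mem_pts.1 (mem_filter.1 hp).1).1, ?_, ?_⟩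
    · have : R.card ≤ 288 *
          ((pts R l).filter fun p => ¬ ∃ q' ∈ O, q' ≠ q ∧ On (thru p q) q').card := by omega
      exact_mod_cast this
    · intro p hp
      obtain ⟨hp1, hp2⟩ := mem_filter.1 hp
      have hpq := hOn q hqO p hp1
      have a2 : On (thru p q) q := hR.on_thru (mem_pts.1 hp1).1 hq hpq
      have a3 : pts R (thru p q) = {p, q} := by
        ext x
        rw [mem_pts, mem_insert, mem_singleton]
        constructor
        · rintro ⟨x1, x2⟩
          by_contra hh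
          rw [not_or] at hh
          by_cases hx : On l x
          · exact hql (line_eq_of_two hh.1 x2 (on_thru_left _ _) hx (mem_pts.1 hp1).2 ▸ a2)
          · exact hp2 ⟨x, mem_filter.2 ⟨x1, hx⟩, hh.2, x2⟩
        · rintro (rfl | rfl)
          · exact ⟨(mem_pts.1 hp1).1, on_thru_left _ _⟩
          · exact ⟨hq, a2⟩
      have a4 := hz (thru p q) (by rw [a3, card_pair hpq])
      rw [a3, sum_pair hpq] at a4
      exact eq_of_add_eq_zero h2 a4
  · right
    obtain ⟨Q, hQ, hQc⟩ := exists_subset_card_eq (s := O) (n := (pts R l).card / 2) (by omega)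
    have a1 : (Q.sigma fun q =>
        (pts R l).filter fun p => ¬ ∃ q' ∈ Q, q' ≠ q ∧ On (thru p q) q').card ≤
        (lines R).card := by
      refine card_le_card_of_injOn (fun s => thru s.2 s.1) ?_ ?_
      · rintro ⟨q, p⟩ hs
        obtain ⟨hq, hp⟩ := mem_sigma.1 hs
        have hp1 := (mem_filter.1 hp).1
        have hpq := hOn q (hQ hq) p hp1
        have hq1 := (mem_filter.1 (hQ hq)).1
        exact hR.mem_lines.2 ⟨p, (mem_pts.1 hp1).1, q, hq1, hpq, on_thru_left _ _,
          hR.on_thru (mem_pts.1 hp1).1 hq1 hpq⟩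
      · rintro ⟨q, p⟩ hs ⟨q', p'⟩ hs' e
        obtain ⟨hq, hp⟩ := mem_sigma.1 hs
        obtain ⟨hq', hp'⟩ := mem_sigma.1 hs'
        obtain ⟨hp1, hp2⟩ := mem_filter.1 hp
        have hp1' := (mem_filter.1 hp').1
        have e' : thru p q = thru p' q' := e
        have b1 : On (thru p' q') q' := hR.on_thru (mem_pts.1 hp1').1 (mem_filter.1 (hQ hq')).1
          (hOn q' (hQ hq') p' hp1')
        have b2 : q' = q := by
          by_contra hh
          exact hp2 ⟨q', hq', hh, e' ▸ b1⟩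
        subst b2
        have b3 : p = p' := by
          by_contra hh
          have := line_eq_of_two hh (e' ▸ on_thru_left p q') (on_thru_left p' q')
            (mem_pts.1 hp1).2 (mem_pts.1 hp1').2
          exact (mem_filter.1 (hQ hq)).2 (this ▸ b1)
        subst b3
        rfl
    rw [card_sigma] at a1
    have a2 : Q.card * Q.card ≤ ∑ q ∈ Q,
        ((pts R l).filter fun p => ¬ ∃ q' ∈ Q, q' ≠ q ∧ On (thru p q) q').card := by
      rw [← smul_eq_mul, ← sum_const]
      refine sum_le_sum fun q hq => ?_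
      have := free Q hQ q hq
      omega
    have a3 : R.card ≤ 576 * Q.card := by omega
    have a4 : (R.card : ℝ) ≤ 576 * Q.card := by exact_mod_cast a3
    have a5 : (Q.card : ℝ) * Q.card ≤ (lines R).card := by exact_mod_cast a2.trans a1
    have a6 : (R.card : ℝ) ^ 2 ≤ (576 * Q.card) ^ 2 := by gcongr
    have a7 : (0 : ℝ) ≤ (lines R).card := by positivity
    nlinarith

/-- The subgroup with elements `0` and `x`. -/
def two (h2 : ∀ x : G, x + x = 0) (x : G) : AddSubgroup G where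
  carrier := {v | v = 0 ∨ v = x}
  zero_mem' := Or.inl rfl
  add_mem' := by
    rintro a b (rfl | rfl) (hb | hb) <;> simp [hb, h2]
  neg_mem' := by
    rintro a ha
    rwa [neg_eq_of_add_eq_zero_right (h2 a)]

lemma two_sumLe (h2 : ∀ x : G, x + x = 0) {A : Set G} {x : G} (hx : x ∈ A) {k : ℕ} :
    ∀ v ∈ two h2 x, SumLe A (k + 1) v := by
  rintro v (rfl | rfl)
  · exact SumLe.zero _ _
  · exact (SumLe.single hx).mono subset_rfl (by omega)

theorem lemmaB : ∃ k : ℕ, ∃ c : ℝ, 0 < c ∧ ∀ (G : Type) [AddCommGroup G], (∀ x : G, x + x = 0) →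
    ∀ (R : Finset (ℝ × ℝ)) (h : ℝ × ℝ → G), XInj R → NonCol R → ZeroSum R h →
    ∃ H : AddSubgroup G, (∀ v ∈ H, SumLe (h '' R) k v) ∧
      ∃ Q ⊆ R, c * R.card ≤ Q.card ∧ ∀ x ∈ Q, h x ∈ H := by
  classical
  set C : ℝ := 4 * 6912 ^ 2 with hC
  have C0 : 288 ≤ C := by rw [hC]; norm_num
  obtain ⟨k, c, hc, hk⟩ := scale (c := 1 / (4 * C)) (by positivity)
    (by rw [div_le_one (by positivity)]; linarith)
  refine ⟨k + 1, min c (1 / (8 * C)), by positivity, ?_⟩
  intro G _ h2 R h hR hn hz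
  set m : ℝ := (R.card : ℝ) with hm
  have hRne : R.Nonempty := by
    obtain ⟨p, hp, -⟩ := hn (0, 0)
    exact ⟨p, hp⟩
  have m0 : 0 < m := by rw [hm]; exact_mod_cast card_pos.2 hRne
  have cls : ∀ q ∈ R, ∀ Q ⊆ R, m ≤ 8 * C * Q.card → (∀ p ∈ Q, h p = h q) →
      ∃ H : AddSubgroup G, (∀ v ∈ H, SumLe (h '' R) (k + 1) v) ∧
      ∃ Q ⊆ R, min c (1 / (8 * C)) * m ≤ Q.card ∧ ∀ x ∈ Q, h x ∈ H := by
    intro q hq Q hQ h1 h3
    refine ⟨two h2 (h q), two_sumLe h2 (Set.mem_image_of_mem h hq), Q, hQ, ?_, fun x hx => Or.inr (h3 x hx)⟩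
    calc _ ≤ 1 / (8 * C) * m := by gcongr; exact min_le_right _ _
      _ ≤ 1 / (8 * C) * (8 * C * Q.card) := by gcongr
      _ = _ := by field_simp
  by_cases small : m ≤ 8 * C
  · obtain ⟨p, hp⟩ := hRne
    exact cls p hp {p} (by simpa using hp) (by simpa using small) (by simp)
  push Not at small
  have hm288 : 288 ≤ R.card := by
    have : (288 : ℝ) ≤ R.card := by linarith
    exact_mod_cast this
  rcases dichotomy h2 hR hn hz hm288 with ⟨q, hq, Q, hQ, h1, h3⟩ | hl
  · refine cls q hq Q hQ (h1.trans ?_) h3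
    gcongr
    linarith
  set L2 := (lines R).filter fun l => (pts R l).card = 2 with hL2
  set L3 := (lines R).filter fun l => (pts R l).card = 3 with hL3
  have mel : ((lines R).card : ℝ) - 2 * L2.card - L3.card ≤ m := by
    refine le_trans ?_ (melchior hR)
    rw [hL2, hL3, card_filter, card_filter, card_eq_sum_ones]
    push_cast
    rw [mul_sum, ← sum_sub_distrib, ← sum_sub_distrib]
    refine sum_le_sum fun l hl => ?_
    have := hR.two_le hl
    split_ifs with c1 c2 c2
    · omega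
    · rw [c1]; norm_num
    · rw [c2]; norm_num
    · have : (4 : ℝ) ≤ (pts R l).card := by exact_mod_cast (by omega : 4 ≤ (pts R l).card)
      linarith
  have big : m ^ 2 ≤ 2 * C * (2 * L2.card + L3.card) := by
    have : C * m ≤ m ^ 2 / 2 := by nlinarith
    nlinarith
  by_cases c2 : m ^ 2 ≤ 8 * C * L2.card
  · have a1 : L2.card ≤ ((R ×ˢ R).filter fun e => h e.2 = h e.1).card := by
      refine card_le_card_of_forall_subsingleton
        (fun l (e : (ℝ × ℝ) × (ℝ × ℝ)) => e.1 ≠ e.2 ∧ On l e.1 ∧ On l e.2) ?_ ?_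
      · intro l hl
        have hl2 := (mem_filter.1 hl).2
        obtain ⟨p, q, hpq, e⟩ := card_eq_two.1 hl2
        have b1 : p ∈ pts R l := by rw [e]; simp
        have b2 : q ∈ pts R l := by rw [e]; simp
        have b3 := hz l hl2.ge
        rw [e, sum_pair hpq] at b3
        exact ⟨(p, q), mem_filter.2 ⟨mem_product.2 ⟨(mem_pts.1 b1).1, (mem_pts.1 b2).1⟩,
          (eq_of_add_eq_zero h2 b3).symm⟩, hpq, (mem_pts.1 b1).2, (mem_pts.1 b2).2⟩
      · rintro e - l ⟨-, b1, b2, b3⟩ l' ⟨-, -, b4, b5⟩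
        exact line_eq_of_two b1 b2 b3 b4 b5
    have a2 : (((R ×ˢ R).filter fun e => h e.2 = h e.1).card : ℝ) =
        ∑ p ∈ R, ((R.filter fun y => h y = h p).card : ℝ) := by
      simp only [card_filter]
      push_cast
      rw [sum_product]
    obtain ⟨p, hp, a3⟩ := exists_le_of_sum_le (s := R) (f := fun _ => m)
      (g := fun p => 8 * C * ((R.filter fun y => h y = h p).card : ℝ)) hRne (by
        rw [← mul_sum, ← a2, sum_const, nsmul_eq_mul, ← hm, ← sq]
        refine c2.trans ?_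
        gcongr)
    exact cls p hp _ (filter_subset _ _) a3 fun x hx => (mem_filter.1 hx).2
  push Not at c2
  have c3 : 1 / (4 * C) * m ^ 2 ≤ L3.card := by
    rw [div_mul_eq_mul_div, div_le_iff₀ (by positivity)]
    nlinarith
  set T := (R ×ˢ R ×ˢ R).filter fun t => t.1 ≠ t.2.1 ∧ t.1 ≠ t.2.2 ∧ t.2.1 ≠ t.2.2 ∧
    ∃ l, pts R l = {t.1, t.2.1, t.2.2} with hT
  have onl : ∀ {l p q r : ℝ × ℝ}, pts R l = {p, q, r} → On l p ∧ On l q ∧ On l r := by
    intro l p q r e
    have b1 : p ∈ pts R l := by rw [e]; simp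
    have b2 : q ∈ pts R l := by rw [e]; simp
    have b3 : r ∈ pts R l := by rw [e]; simp
    exact ⟨(mem_pts.1 b1).2, (mem_pts.1 b2).2, (mem_pts.1 b3).2⟩
  have a1 : L3.card ≤ T.card := by
    refine card_le_card_of_forall_subsingleton
      (fun l (t : (ℝ × ℝ) × (ℝ × ℝ) × (ℝ × ℝ)) => t.1 ≠ t.2.1 ∧ On l t.1 ∧ On l t.2.1) ?_ ?_
    · intro l hl
      obtain ⟨p, q, r, n1, n2, n3, e⟩ := card_eq_three.1 (mem_filter.1 hl).2
      have b1 : p ∈ pts R l := by rw [e]; simp
      have b2 : q ∈ pts R l := by rw [e]; simp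
      have b3 : r ∈ pts R l := by rw [e]; simp
      refine ⟨(p, q, r), mem_filter.2 ⟨?_, n1, n2, n3, l, e⟩, n1, (mem_pts.1 b1).2,
        (mem_pts.1 b2).2⟩
      simp only [mem_product]
      exact ⟨(mem_pts.1 b1).1, (mem_pts.1 b2).1, (mem_pts.1 b3).1⟩
    · rintro e - l ⟨-, b1, b2, b3⟩ l' ⟨-, -, b4, b5⟩
      exact line_eq_of_two b1 b2 b3 b4 b5
  obtain ⟨H, hH, Q, hQ, hQc, hQH⟩ := hk (ℝ × ℝ) G h2 R h T hRne
    (by
      rintro ⟨p, q, r⟩ ht
      obtain ⟨b1, n1, n2, n3, l, e⟩ := mem_filter.1 ht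
      simp only [mem_product] at b1
      refine ⟨b1.1, b1.2.1, b1.2.2, ?_⟩
      have hc3 : (pts R l).card = 3 := card_eq_three.2 ⟨p, q, r, n1, n2, n3, e⟩
      have b3 := hz l (by omega)
      rw [e, sum_insert (by simpa using ⟨n1, n2⟩), sum_pair n3, ← add_assoc] at b3
      exact b3)
    (by
      rintro ⟨p, q, r⟩ ht ⟨p', q', r'⟩ ht' (rfl : p = p') (rfl : q = q')
      obtain ⟨-, n1, n2, n3, l, e⟩ := mem_filter.1 ht
      obtain ⟨-, -, -, -, l', e'⟩ := mem_filter.1 ht'
      have := line_eq_of_two n1 (onl e).1 (onl e).2.1 (onl e').1 (onl e').2.1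
      subst this
      have b : r ∈ ({p, q, r'} : Finset (ℝ × ℝ)) := by rw [← e', e]; simp
      simp only [mem_insert, mem_singleton] at b
      rcases b with b | b | b
      · exact (n2 b.symm).elim
      · exact (n3 b.symm).elim
      · rw [b])
    (by
      rintro ⟨p, q, r⟩ ht ⟨p', q', r'⟩ ht' (rfl : p = p') (rfl : r = r')
      obtain ⟨-, n1, n2, n3, l, e⟩ := mem_filter.1 ht
      obtain ⟨-, -, -, -, l', e'⟩ := mem_filter.1 ht'
      have := line_eq_of_two n2 (onl e).1 (onl e).2.2 (onl e').1 (onl e').2.2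
      subst this
      have b : q ∈ ({p, q', r} : Finset (ℝ × ℝ)) := by rw [← e', e]; simp
      simp only [mem_insert, mem_singleton] at b
      rcases b with b | b | b
      · exact (n1 b.symm).elim
      · rw [b]
      · exact (n3 b).elim)
    (by
      rintro ⟨p, q, r⟩ ht ⟨p', q', r'⟩ ht' (rfl : q = q') (rfl : r = r')
      obtain ⟨-, n1, n2, n3, l, e⟩ := mem_filter.1 ht
      obtain ⟨-, -, -, -, l', e'⟩ := mem_filter.1 ht'
      have := line_eq_of_two n3 (onl e).2.1 (onl e).2.2 (onl e').2.1 (onl e').2.2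
      subst this
      have b : p ∈ ({p', q, r} : Finset (ℝ × ℝ)) := by rw [← e', e]; simp
      simp only [mem_insert, mem_singleton] at b
      rcases b with b | b | b
      · rw [b]
      · exact (n1 b).elim
      · exact (n2 b).elim)
    (c3.trans (by exact_mod_cast a1))
  refine ⟨H, fun v hv => (hH v hv).mono subset_rfl (by omega), Q, hQ, le_trans ?_ hQc, hQH⟩
  gcongr
  exact min_le_left _ _

lemma sumLe_lift {G' : Type} [AddCommGroup G'] (f : G →+ G') {A : Set G} {k : ℕ} {w : G'}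
    (h : SumLe (f '' A) k w) : ∃ u, SumLe A k u ∧ f u = w := by
  obtain ⟨l, l1, l2, rfl⟩ := h
  induction l using Multiset.induction_on generalizing k with
  | empty => exact ⟨0, SumLe.zero _ _, by simp⟩
  | cons a l ih =>
    obtain ⟨u, u1, u2⟩ := ih (k := l.card) le_rfl fun x hx => l2 x (Multiset.mem_cons_of_mem hx)
    obtain ⟨b, b1, b2⟩ := l2 a (Multiset.mem_cons_self _ _)
    refine ⟨b + u, ((SumLe.single b1).add u1).mono subset_rfl ?_, by simp [b2, u2]⟩
    rw [Multiset.card_cons] at l1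
    omega

/-- Every element of the span of the values is a sum of boundedly many values. -/
theorem core : ∃ K : ℕ, ∀ (P : Finset (ℝ × ℝ)), XInj P → NonCol P →
    ∀ (G : Type) [AddCommGroup G], (∀ x : G, x + x = 0) → ∀ h : ℝ × ℝ → G, ZeroSum P h →
    ∀ v ∈ AddSubgroup.closure (h '' P), SumLe (h '' P) K v := by
  classical
  obtain ⟨k, c, hc, hB⟩ := lemmaB
  refine ⟨⌈27793 / c⌉₊ * k, fun P hP hn => ?_⟩
  have n0 : (0 : ℝ) ≤ P.card := by positivity
  have key : ∀ j : ℕ, ∀ (G : Type) [AddCommGroup G], (∀ x : G, x + x = 0) →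
      ∀ h : ℝ × ℝ → G, ZeroSum P h →
      ((P.filter fun x => h x ≠ 0).card : ℝ) ≤ j * (c / 27793 * P.card) →
      ∀ v ∈ AddSubgroup.closure (h '' P), SumLe (h '' P) (j * k) v := by
    have triv : ∀ (G : Type) [AddCommGroup G] (h : ℝ × ℝ → G) (K : ℕ),
        (P.filter fun x => h x ≠ 0) = ∅ →
        ∀ v ∈ AddSubgroup.closure (h '' P), SumLe (h '' P) K v := by
      intro G _ h K he v hv
      have : AddSubgroup.closure (h '' P) ≤ ⊥ := by
        rw [AddSubgroup.closure_le]
        rintro _ ⟨x, hx, rfl⟩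
        have := filter_eq_empty_iff.1 he hx
        simpa using this
      rw [AddSubgroup.mem_bot.1 (this hv)]
      exact SumLe.zero _ _
    intro j
    induction j with
    | zero =>
      intro G _ h2 h hz hcard
      refine triv G h _ (card_eq_zero.1 ?_)
      have : ((P.filter fun x => h x ≠ 0).card : ℝ) ≤ 0 := by simpa using hcard
      exact_mod_cast le_antisymm this (by positivity)
    | succ j ih =>
      intro G _ h2 h hz hcard
      set R := P.filter fun x => h x ≠ 0 with hR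
      rcases R.eq_empty_or_nonempty with he | hne
      · exact triv G h _ he
      set Z := P.filter fun x => ¬ h x ≠ 0 with hZ
      have hRP : R ⊆ P := filter_subset _ _
      have hZP : Z ⊆ P := filter_subset _ _
      have sumR : ∀ l, ∑ x ∈ pts R l, h x = ∑ x ∈ pts P l, h x := by
        intro l
        refine sum_subset (fun x hx => mem_pts.2 ⟨hRP (mem_pts.1 hx).1, (mem_pts.1 hx).2⟩) ?_
        intro x hx hx'
        by_contra hh
        exact hx' (mem_pts.2 ⟨mem_filter.2 ⟨(mem_pts.1 hx).1, hh⟩, (mem_pts.1 hx).2⟩)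
      have hd : ∀ p ∈ R, p ∉ Z := fun p hp hp' => (mem_filter.1 hp').2 (mem_filter.1 hp).2
      have two : ∀ l, ∀ p ∈ R, ∀ z ∈ Z, On l p → On l z → 2 ≤ (pts R l).card := by
        intro l p hp z hz' a1 a2
        have a3 := hz l (one_lt_card.2 ⟨p, mem_pts.2 ⟨hRP hp, a1⟩, z, mem_pts.2 ⟨hZP hz', a2⟩,
          fun e => hd p hp (e ▸ hz')⟩)
        rw [← sumR] at a3
        by_contra hh
        have a4 : pts R l = {p} := by
          refine eq_singleton_iff_unique_mem.2 ⟨mem_pts.2 ⟨hp, a1⟩, fun x hx => ?_⟩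
          exact card_le_one.1 (by omega) x hx p (mem_pts.2 ⟨hp, a1⟩)
        rw [a4, sum_singleton] at a3
        exact (mem_filter.1 hp).2 a3
      have hnR : NonCol R := nonCol_of hP hRP
        (fun p hp hp' => by
          rw [hZ, mem_filter]
          exact ⟨hp, fun hh => hp' (mem_filter.2 ⟨hp, hh⟩)⟩) hn hne two
      have hA := lemmaA hP hRP hZP hd hnR two
      have hsplit : (R.card : ℝ) + Z.card = P.card := by
        have := card_filter_add_card_filter_not (s := P) fun x => h x ≠ 0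
        rw [← Nat.cast_add, ← this]

      have hzR : ZeroSum R h := by
        intro l hl
        rw [sumR]
        exact hz l (hl.trans (card_le_card fun x hx =>
          mem_pts.2 ⟨hRP (mem_pts.1 hx).1, (mem_pts.1 hx).2⟩))
      obtain ⟨H, hH, Q, hQ, hQc, hQH⟩ := hB G h2 R h (hP.mono hRP) hnR hzR
      let f : G →+ G ⧸ H := QuotientAddGroup.mk' H
      have h2' : ∀ x : G ⧸ H, x + x = 0 := by
        intro x
        obtain ⟨y, rfl⟩ := QuotientAddGroup.mk'_surjective H x
        rw [← map_add, h2, map_zero]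
      have hz' : ZeroSum P (f ∘ h) := by
        intro l hl
        simp only [Function.comp]
        rw [← map_sum, hz l hl, map_zero]
      have hc' : ((P.filter fun x => (f ∘ h) x ≠ 0).card : ℝ) ≤ j * (c / 27793 * P.card) := by
        have a1 : (P.filter fun x => (f ∘ h) x ≠ 0) ⊆ R \ Q := by
          intro x hx
          obtain ⟨x1, x2⟩ := mem_filter.1 hx
          refine mem_sdiff.2 ⟨mem_filter.2 ⟨x1, fun hh => x2 ?_⟩, fun hh => x2 ?_⟩
          · simp [hh]
          · exact (QuotientAddGroup.eq_zero_iff _).2 (hQH x hh)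
        have a2 := card_le_card a1
        have a3 := card_sdiff_add_card_eq_card hQ
        have a4 : ((P.filter fun x => (f ∘ h) x ≠ 0).card : ℝ) + Q.card ≤ R.card := by
          exact_mod_cast (by omega : (P.filter fun x => (f ∘ h) x ≠ 0).card + Q.card ≤ R.card)
        have a5 : c / 27793 * P.card ≤ c * R.card := by
          have : (P.card : ℝ) ≤ 27793 * R.card := by linarith
          calc _ ≤ c / 27793 * (27793 * R.card) := by gcongr
            _ = _ := by ring
        push_cast at hcard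
        linarith
      intro v hv
      have a1 : f v ∈ AddSubgroup.closure ((f ∘ h) '' P) := by
        rw [Set.image_comp, ← AddMonoidHom.map_closure]
        exact AddSubgroup.mem_map_of_mem f hv
      have a2 := ih (G ⧸ H) h2' (f ∘ h) hz' (by convert hc') _ a1
      rw [Set.image_comp] at a2
      obtain ⟨u, u1, u2⟩ := sumLe_lift f a2
      have a3 : -u + v ∈ H := QuotientAddGroup.eq.1 u2
      have a4 := u1.add ((hH _ a3).mono (Set.image_mono (coe_subset.2 hRP)) le_rfl)
      rw [add_neg_cancel_left] at a4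
      rwa [add_mul, one_mul]
  intro G _ h2 h hz
  refine key _ G h2 h hz ?_
  have a1 : ((P.filter fun x => h x ≠ 0).card : ℝ) ≤ P.card := by
    exact_mod_cast card_filter_le _ _
  have a2 := Nat.le_ceil (27793 / c)
  calc _ ≤ (P.card : ℝ) := a1
    _ = 27793 / c * (c / 27793 * P.card) := by field_simp
    _ ≤ _ := by gcongr

end Pool.Agent.P.MP_f8f66f_co
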