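import Pool.Agent.Lib.Additive.BSG

/-!
From many zero-sum triples of points to a boundedly generated subgroup catching many points.
-/

namespace Pool.Agent.P.MP_f8f66f_co

open Finset Pool.Agent.Lib.Additive

variable {α G : Type} [DecidableEq α] [AddCommGroup G] [DecidableEq G]

/-- Size of the class of points with value `g`. -/
def sz (R : Finset α) (h : α → G) (g : G) : ℝ := (R.filter fun y => h y = g).card

omit [DecidableEq α] [AddCommGroup G] in
lemma sz_nonneg (R : Finset α) (h : α → G) (g : G) : 0 ≤ sz R h g := by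
  unfold sz
  positivity

omit [DecidableEq α] [AddCommGroup G] in
lemma sum_sz (R : Finset α) (h : α → G) (B : Finset G) :
    ∑ g ∈ B, sz R h g = (R.filter fun y => h y ∈ B).card := by
  unfold sz
  rw [← Nat.cast_sum, sum_card_fiberwise_eq_card_filter]

omit [DecidableEq α] [AddCommGroup G] in
lemma sum_sz_le (R : Finset α) (h : α → G) (B : Finset G) : ∑ g ∈ B, sz R h g ≤ R.card := by
  rw [sum_sz]
  exact_mod_cast card_filter_le _ _

lemma unbalanced {ι : Type} (R : Finset α) (h : α → G) (T : Finset ι)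
    (a b c : ι → α) (hR : ∀ t ∈ T, a t ∈ R ∧ b t ∈ R ∧ c t ∈ R ∧ h (a t) + h (b t) + h (c t) = 0)
    (hinj : ∀ t ∈ T, ∀ t' ∈ T, a t = a t' → c t = c t' → t = t') {e : ℝ} (he : 0 ≤ e) :
    ((T.filter fun t => sz R h (h (a t)) < e * sz R h (h (b t))).card : ℝ) ≤
      e * (R.card : ℝ) ^ 2 := by
  classical
  set T1 := T.filter fun t => sz R h (h (a t)) < e * sz R h (h (b t)) with hT1
  rw [card_eq_sum_card_fiberwise (s := T1) (t := R ×ˢ R.image h) (f := fun t => (c t, h (b t)))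
    (fun t ht => by
      have := hR t (mem_filter.1 ht).1
      exact mem_product.2 ⟨this.2.2.1, mem_image_of_mem _ this.2.1⟩)]
  push_cast
  calc _ ≤ ∑ x ∈ R ×ˢ R.image h, e * sz R h x.2 := by
        refine sum_le_sum ?_
        rintro ⟨r, y⟩ -
        rcases (T1.filter fun t => (c t, h (b t)) = (r, y)).eq_empty_or_nonempty with h0 | ⟨t0, h0⟩
        · rw [h0]
          simpa using mul_nonneg he (sz_nonneg R h y)
        obtain ⟨h01, h02⟩ := mem_filter.1 h0
        obtain ⟨h03, h04⟩ := mem_filter.1 h01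
        obtain ⟨rfl, rfl⟩ := Prod.mk.inj h02
        refine le_trans ?_ h04.le
        unfold sz
        refine Nat.cast_le.2 (card_le_card_of_injOn a ?_ ?_)
        · intro t ht
          obtain ⟨h1, h3⟩ := mem_filter.1 ht
          obtain ⟨h4, -⟩ := mem_filter.1 h1
          obtain ⟨h5, h6⟩ := Prod.mk.inj h3
          refine mem_filter.2 ⟨(hR t h4).1, ?_⟩
          have e1 := (hR t h4).2.2.2
          have e2 := (hR t0 h03).2.2.2
          rw [h5, h6, ← e2] at e1
          exact add_right_cancel (add_right_cancel e1)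
        · intro t ht t' ht' hh
          obtain ⟨h1, h3⟩ := mem_filter.1 ht
          obtain ⟨h1', h3'⟩ := mem_filter.1 ht'
          exact hinj t (mem_filter.1 h1).1 t' (mem_filter.1 h1').1 hh
            ((Prod.mk.inj h3).1.trans (Prod.mk.inj h3').1.symm)
    _ ≤ _ := by
        rw [sum_product]
        simp only [← mul_sum, sum_const, nsmul_eq_mul]
        have := sum_sz_le R h (R.image h)
        have n0 : (0 : ℝ) ≤ R.card := by positivity
        nlinarith [mul_le_mul_of_nonneg_left this (mul_nonneg he n0)]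

theorem scale {c : ℝ} (hc : 0 < c) (hc1 : c ≤ 1) : ∃ k : ℕ, ∃ c' : ℝ, 0 < c' ∧
    ∀ (α G : Type) [DecidableEq α] [AddCommGroup G] [DecidableEq G], (∀ x : G, x + x = 0) →
    ∀ (R : Finset α) (h : α → G) (T : Finset (α × α × α)), R.Nonempty →
    (∀ t ∈ T, t.1 ∈ R ∧ t.2.1 ∈ R ∧ t.2.2 ∈ R ∧ h t.1 + h t.2.1 + h t.2.2 = 0) →
    (∀ t ∈ T, ∀ t' ∈ T, t.1 = t'.1 → t.2.1 = t'.2.1 → t = t') →
    (∀ t ∈ T, ∀ t' ∈ T, t.1 = t'.1 → t.2.2 = t'.2.2 → t = t') →
    (∀ t ∈ T, ∀ t' ∈ T, t.2.1 = t'.2.1 → t.2.2 = t'.2.2 → t = t') →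
    c * (R.card : ℝ) ^ 2 ≤ T.card →
    ∃ H : AddSubgroup G, (∀ v ∈ H, SumLe (h '' R) k v) ∧
      ∃ Q ⊆ R, c' * R.card ≤ Q.card ∧ ∀ x ∈ Q, h x ∈ H := by
  set e : ℝ := c / 8 with he
  have e0 : 0 < e := by positivity
  have e1 : e ≤ 1 := by linarith
  obtain ⟨k, hk⟩ := triples_span (c := c ^ 2 * e ^ 8 / 4) (by positivity)
  refine ⟨k, c ^ 3 * e ^ 12 / 32, by positivity, ?_⟩
  intro α G _ _ _ h2 R h T hRne hT i12 i13 i23 hcard
  classical
  set m : ℝ := (R.card : ℝ) with hm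
  have m0 : 0 < m := by rw [hm]; exact_mod_cast card_pos.2 hRne
  let s : α → ℝ := fun x => sz R h (h x)
  have u1 := unbalanced R h T (fun t => t.1) (fun t => t.2.1) (fun t => t.2.2) hT i13 e0.le
  have u2 := unbalanced R h T (fun t => t.2.1) (fun t => t.1) (fun t => t.2.2)
    (fun t ht => ⟨(hT t ht).2.1, (hT t ht).1, (hT t ht).2.2.1, by
      rw [← (hT t ht).2.2.2]; abel⟩) i23 e0.le
  have u3 := unbalanced R h T (fun t => t.2.2) (fun t => t.2.1) (fun t => t.1)
    (fun t ht => ⟨(hT t ht).2.2.1, (hT t ht).2.1, (hT t ht).1, by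
      rw [← (hT t ht).2.2.2]; abel⟩) (fun t ht t' ht' a b => i13 t ht t' ht' b a) e0.le
  have u4 := unbalanced R h T (fun t => t.2.1) (fun t => t.2.2) (fun t => t.1)
    (fun t ht => ⟨(hT t ht).2.1, (hT t ht).2.2.1, (hT t ht).1, by
      rw [← (hT t ht).2.2.2]; abel⟩) (fun t ht t' ht' a b => i12 t ht t' ht' b a) e0.le
  let near : α → α → Prop := fun x y => e * s y ≤ s x ∧ e * s x ≤ s y
  set T1 := T.filter fun t => near t.2.1 t.1 ∧ near t.2.1 t.2.2 with hT1
  have c1 : c * m ^ 2 / 2 ≤ T1.card := by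
    have : T ⊆ T1 ∪ ((T.filter fun t => s t.1 < e * s t.2.1) ∪
        ((T.filter fun t => s t.2.1 < e * s t.1) ∪ ((T.filter fun t => s t.2.2 < e * s t.2.1) ∪
        (T.filter fun t => s t.2.1 < e * s t.2.2)))) := by
      intro t ht
      simp only [hT1, mem_union, mem_filter, ht, true_and, near]
      by_contra hh
      simp only [not_or, not_lt] at hh
      exact hh.1 ⟨⟨hh.2.2.1, hh.2.1⟩, hh.2.2.2.2, hh.2.2.2.1⟩
    have a1 : T.card ≤ T1.card + ((T.filter fun t => s t.1 < e * s t.2.1).card +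
        ((T.filter fun t => s t.2.1 < e * s t.1).card +
        ((T.filter fun t => s t.2.2 < e * s t.2.1).card +
        (T.filter fun t => s t.2.1 < e * s t.2.2).card))) := by
      refine (card_le_card this).trans ((card_union_le _ _).trans ?_)
      gcongr
      refine (card_union_le _ _).trans ?_
      gcongr
      refine (card_union_le _ _).trans ?_
      gcongr
      exact card_union_le _ _
    have a2 : (T.card : ℝ) ≤ T1.card + ((T.filter fun t => s t.1 < e * s t.2.1).card +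
        ((T.filter fun t => s t.2.1 < e * s t.1).card +
        ((T.filter fun t => s t.2.2 < e * s t.2.1).card +
        (T.filter fun t => s t.2.1 < e * s t.2.2).card))) := by exact_mod_cast a1
    have a3 : e * m ^ 2 = c * m ^ 2 / 8 := by rw [he]; ring
    simp only [s] at a2
    linarith
  let deg : α → ℝ := fun q => (T1.filter fun t => t.2.1 = q).card
  have mT1 : ∀ t ∈ T1, t.2.1 ∈ R := fun t ht => (hT t (mem_filter.1 ht).1).2.1
  have c2 : ∑ q ∈ R, deg q = T1.card := by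
    rw [card_eq_sum_card_fiberwise (s := T1) (t := R) (f := fun t : α × α × α => t.2.1)
      (fun t ht => mT1 t ht)]
    push_cast
    rfl
  have c3 : (∑ q ∈ R, deg q) ^ 2 ≤ m * ∑ q ∈ R, deg q ^ 2 := sq_sum_le_card_mul_sum_sq
  have c4 : ∑ q ∈ R, deg q ^ 2 = ∑ t ∈ T1, deg t.2.1 := by
    rw [← sum_fiberwise_of_maps_to (s := T1) (t := R) (g := fun t => t.2.1) mT1]
    refine sum_congr rfl fun q _ => ?_
    rw [sum_congr rfl fun t ht => by rw [(mem_filter.1 ht).2], sum_const, nsmul_eq_mul, sq]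
  have c5 : ∑ t ∈ T1, deg t.2.1 ≤ ∑ p ∈ R, ((T1.filter fun t => near t.2.1 p).card : ℝ) := by
    have : ∑ p ∈ R, ((T1.filter fun t => near t.2.1 p).card : ℝ) =
        ∑ t ∈ T1, ((R.filter fun p => near t.2.1 p).card : ℝ) := by
      simp only [card_filter]
      push_cast
      rw [sum_comm]
    rw [this]
    refine sum_le_sum fun t _ => Nat.cast_le.2 (card_le_card_of_injOn (fun t' => t'.1) ?_ ?_)
    · intro t' ht'
      obtain ⟨a1, a2⟩ := mem_filter.1 ht'
      obtain ⟨a3, a4⟩ := mem_filter.1 a1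
      exact mem_filter.2 ⟨(hT t' a3).1, a2 ▸ a4.1⟩
    · intro t1 ht1 t2 ht2 hh
      obtain ⟨a1, a2⟩ := mem_filter.1 ht1
      obtain ⟨b1, b2⟩ := mem_filter.1 ht2
      exact i12 t1 (mem_filter.1 a1).1 t2 (mem_filter.1 b1).1 hh (a2.trans b2.symm)
  obtain ⟨p0, hp0, c6⟩ := exists_le_of_sum_le (s := R) (f := fun _ => c ^ 2 * m ^ 2 / 4)
    (g := fun p => ((T1.filter fun t => near t.2.1 p).card : ℝ)) hRne (by
      rw [sum_const, nsmul_eq_mul, ← hm]
      refine le_trans ?_ (c4.le.trans c5)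
      refine le_of_mul_le_mul_left (le_trans ?_ c3) m0
      rw [c2]
      calc m * (m * (c ^ 2 * m ^ 2 / 4)) = (c * m ^ 2 / 2) ^ 2 := by ring
        _ ≤ _ := by gcongr)
  set T2 := T1.filter fun t => near t.2.1 p0 with hT2
  set s0 := s p0 with hs0
  have s00 : 0 < s0 := by
    have : (R.filter fun y => h y = h p0).Nonempty := ⟨p0, mem_filter.2 ⟨hp0, rfl⟩⟩
    simp only [hs0, s, sz]
    exact_mod_cast card_pos.2 this
  set B := (R.image h).filter fun g => e ^ 2 * s0 ≤ sz R h g ∧ e ^ 2 * sz R h g ≤ s0 with hB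
  have inB : ∀ x ∈ R, ∀ q, near q p0 → near q x → h x ∈ B := by
    intro x hx q n1 n2
    refine mem_filter.2 ⟨mem_image_of_mem _ hx, ?_, ?_⟩
    · calc e ^ 2 * s0 = e * (e * s0) := by ring
        _ ≤ e * s q := by gcongr; exact n1.1
        _ ≤ _ := n2.2
    · calc e ^ 2 * sz R h (h x) = e * (e * s x) := by ring
        _ ≤ e * s q := by gcongr; exact n2.1
        _ ≤ _ := n1.2
  have nself : ∀ q, near q q := fun q => by
    have : 0 ≤ s q := sz_nonneg R h _
    constructor <;> nlinarith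
  have d1 : (B.card : ℝ) * (e ^ 2 * s0) ≤ m := by
    refine le_trans ?_ (sum_sz_le R h B)
    rw [← nsmul_eq_mul, ← sum_const]
    exact sum_le_sum fun g hg => (mem_filter.1 hg).2.1
  set Gr := (B ×ˢ B).filter fun x => x.1 + x.2 ∈ B with hGr
  have d2 : (T2.card : ℝ) * e ^ 4 ≤ Gr.card * s0 ^ 2 := by
    rw [card_eq_sum_card_fiberwise (s := T2) (t := Gr) (f := fun t => (h t.1, h t.2.1))
      (fun t ht => by
        obtain ⟨a1, a2⟩ := mem_filter.1 ht
        obtain ⟨a3, a4, a5⟩ := mem_filter.1 a1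
        obtain ⟨b1, b2, b3, b4⟩ := hT t a3
        refine mem_filter.2 ⟨mem_product.2 ⟨inB _ b1 _ a2 a4, inB _ b2 _ a2 (nself _)⟩, ?_⟩
        have : h t.1 + h t.2.1 = h t.2.2 := by
          rw [← h2 (h t.2.2)] at b4
          exact add_right_cancel b4
        simp only [this]
        exact inB _ b3 _ a2 a5)]
    push_cast
    rw [sum_mul, ← nsmul_eq_mul, ← sum_const]
    refine sum_le_sum ?_
    rintro ⟨g1, g2⟩ hg
    obtain ⟨a1, a2⟩ := mem_product.1 (mem_filter.1 hg).1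
    have a3 := (mem_filter.1 a1).2.2
    have a4 := (mem_filter.1 a2).2.2
    have a5 : (T2.filter fun t => (h t.1, h t.2.1) = (g1, g2)).card ≤
        ((R.filter fun y => h y = g1) ×ˢ (R.filter fun y => h y = g2)).card := by
      refine card_le_card_of_injOn (fun t => (t.1, t.2.1)) ?_ ?_
      · intro t ht
        obtain ⟨b1, b2⟩ := mem_filter.1 ht
        have b3 := hT t (mem_filter.1 (mem_filter.1 b1).1).1
        exact mem_product.2 ⟨mem_filter.2 ⟨b3.1, (Prod.mk.inj b2).1⟩,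
          mem_filter.2 ⟨b3.2.1, (Prod.mk.inj b2).2⟩⟩
      · intro t ht t' ht' hh
        exact i12 t (mem_filter.1 (mem_filter.1 (mem_filter.1 ht).1).1).1
          t' (mem_filter.1 (mem_filter.1 (mem_filter.1 ht').1).1).1
          (Prod.mk.inj hh).1 (Prod.mk.inj hh).2
    rw [card_product] at a5
    have a6 : ((T2.filter fun t => (h t.1, h t.2.1) = (g1, g2)).card : ℝ) ≤
        sz R h g1 * sz R h g2 := by
      unfold sz
      exact_mod_cast a5
    have z1 := sz_nonneg R h g1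
    have z2 := sz_nonneg R h g2
    calc _ ≤ (sz R h g1 * sz R h g2) * e ^ 4 := by gcongr
      _ = (e ^ 2 * sz R h g1) * (e ^ 2 * sz R h g2) := by ring
      _ ≤ s0 * s0 := by gcongr
      _ = _ := by ring
  have d3 : c ^ 2 * m ^ 2 / 4 * e ^ 4 ≤ Gr.card * s0 ^ 2 := le_trans (by gcongr) d2
  have d4 : c ^ 2 * e ^ 8 / 4 * (B.card : ℝ) ^ 2 ≤ Gr.card := by
    refine le_of_mul_le_mul_right (le_trans ?_ d3) (by positivity : 0 < s0 ^ 2)
    calc _ = c ^ 2 * ((B.card : ℝ) * (e ^ 2 * s0)) ^ 2 / 4 * e ^ 4 := by ring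
      _ ≤ _ := by gcongr
  have d5 : (Gr.card : ℝ) ≤ (B.card : ℝ) ^ 2 := by
    have := card_filter_le (B ×ˢ B) fun x => x.1 + x.2 ∈ B
    rw [card_product] at this
    rw [sq (B.card : ℝ)]
    exact_mod_cast this
  have d6 : c * m / 2 * e ^ 2 ≤ B.card * s0 := by
    refine le_of_sq_le_sq ?_ (by positivity)
    calc _ = c ^ 2 * m ^ 2 / 4 * e ^ 4 := by ring
      _ ≤ Gr.card * s0 ^ 2 := d3
      _ ≤ (B.card : ℝ) ^ 2 * s0 ^ 2 := by gcongr
      _ = _ := by ring
  have hBne : B.Nonempty := ⟨h p0, inB p0 hp0 p0 (nself _) (nself _)⟩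
  obtain ⟨A, hAB, a1, a2⟩ := hk G h2 B hBne d4
  refine ⟨AddSubgroup.closure (A : Set G), fun v hv => (a2 v hv).mono ?_ le_rfl,
    R.filter fun y => h y ∈ A, filter_subset _ _, ?_, fun x hx =>
      AddSubgroup.subset_closure (mem_filter.1 hx).2⟩
  · intro g hg
    obtain ⟨x, hx, rfl⟩ := mem_image.1 (mem_filter.1 (hAB hg)).1
    exact ⟨x, hx, rfl⟩
  · rw [← sum_sz]
    calc c ^ 3 * e ^ 12 / 32 * m = c ^ 2 * e ^ 8 / 4 / 4 * e ^ 2 * (c * m / 2 * e ^ 2) := by ring
      _ ≤ c ^ 2 * e ^ 8 / 4 / 4 * e ^ 2 * (B.card * s0) := by gcongr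
      _ = (c ^ 2 * e ^ 8 / 4 * B.card / 4) * (e ^ 2 * s0) := by ring
      _ ≤ A.card * (e ^ 2 * s0) := by gcongr
      _ ≤ _ := by
          rw [← nsmul_eq_mul, ← sum_const]
          exact sum_le_sum fun g hg => (mem_filter.1 (hAB hg)).2.1

end Pool.Agent.P.MP_f8f66f_co
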